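import Mathlib

set_option autoImplicit false

namespace Pool.Agent.Results.MP_2d49c6_co.All

open Finset

/-- c is a FAT k-coloring of G with parameter α -/
def IsFAT {V : Type} (G : SimpleGraph V) (k : ℕ) (c : V → Fin k) (α : ℝ) : Prop :=
  Function.Surjective c ∧ 0 ≤ α ∧ α ≤ 1 ∧ ∀ (v : V) (i : Fin k),
    ({w | G.Adj v w ∧ c w = i}.ncard : ℝ) =
      (if c v = i then 1 - ((k : ℝ) - 1) * α else α) * (G.neighborSet v).ncard

lemma upper {V : Type} [Fintype V] (G : SimpleGraph V) (hc : G.Connected) (d : ℕ)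
    (hd : ∀ v, (G.neighborSet v).ncard = d) (k : ℕ) (hk : 2 ≤ k) (c : V → Fin k) (α : ℝ)
    (h : IsFAT G k c α) : k ≤ d + 1 ∧ k ∣ Fintype.card V := by
  classical
  obtain ⟨hs, -, -, h⟩ := h
  have hN : ∀ v i, {w | G.Adj v w ∧ c w = i}.ncard = #(univ.filter fun w => G.Adj v w ∧ c w = i) := by
    intro v i
    rw [← Set.ncard_coe_finset]; simp
  simp only [hd, hN] at h
  have hex : ∃ u v, G.Adj u v ∧ c u ≠ c v := by
    by_contra hn
    push Not at hn
    obtain ⟨a, ha⟩ := hs ⟨0, by omega⟩
    obtain ⟨b, hb⟩ := hs ⟨1, by omega⟩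
    obtain ⟨p⟩ := hc a b
    have : ∀ {x y : V} (_ : G.Walk x y), c x = c y := by
      intro x y p
      induction p with
      | nil => rfl
      | cons h _ ih => exact (hn _ _ h).trans ih
    have := this p
    rw [ha, hb] at this
    simp at this
  obtain ⟨u, v, huv, hne⟩ := hex
  have hpos : 0 < α * d := by
    have := h u (c v)
    rw [if_neg hne] at this
    rw [← this]
    exact_mod_cast card_pos.2 ⟨v, by simp [huv]⟩
  constructor
  · have h1 : univ.erase (c u) ⊆ (G.neighborSet u).toFinset.image c := by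
      intro i hi
      have := h u i
      rw [if_neg (ne_of_mem_erase hi).symm] at this
      have h2 : 0 < #(univ.filter fun w => G.Adj u w ∧ c w = i) := by
        rw [← this] at hpos; exact_mod_cast hpos
      obtain ⟨w, hw⟩ := card_pos.1 h2
      simp only [mem_filter, mem_univ, true_and] at hw
      exact mem_image.2 ⟨w, by simp [hw.1], hw.2⟩
    have h2 := (card_le_card h1).trans card_image_le
    rw [← Set.ncard_eq_toFinset_card', hd] at h2
    simp at h2
    omega
  · have e : ∀ i j, i ≠ j → #(univ.filter fun w => c w = i) = #(univ.filter fun w => c w = j) := by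
      have e0 : ∀ i j, i ≠ j → (#(univ.filter fun w => c w = i) : ℝ) * (α * d) =
          ∑ x, ∑ y, if G.Adj x y ∧ c x = i ∧ c y = j then 1 else 0 := by
        intro i j hij
        rw [card_filter]
        push_cast
        rw [sum_mul]
        refine sum_congr rfl fun x _ => ?_
        by_cases hx : c x = i
        · have := h x j
          rw [if_neg (by rw [hx]; exact hij)] at this
          rw [← this, card_filter]
          simp [hx]
        · simp [hx]
      intro i j hij
      have := e0 i j hij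
      rw [sum_comm, sum_congr rfl fun x _ => sum_congr rfl fun y _ =>
        if_congr (show G.Adj y x ∧ c y = i ∧ c x = j ↔ G.Adj x y ∧ c x = j ∧ c y = i by
          rw [G.adj_comm]; tauto) rfl rfl, ← e0 j i hij.symm] at this
      exact_mod_cast mul_right_cancel₀ hpos.ne' this
    have e' : ∀ i, #(univ.filter fun w => c w = i) = #(univ.filter fun w => c w = c u) := by
      intro i
      by_cases hi : i = c u
      · rw [hi]
      · exact e _ _ hi
    refine ⟨#(univ.filter fun w => c w = c u), ?_⟩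
    rw [← card_univ, card_eq_sum_card_fiberwise (f := c) (t := univ) (by simp)]
    simp [e']

def sh (m s : ℕ) : Finset (ZMod m) :=
  (Icc 1 s).image (fun t : ℕ => (t : ZMod m)) ∪ (Icc 1 s).image fun t : ℕ => -(t : ZMod m)

lemma sh_neg {m s : ℕ} {x : ZMod m} (h : x ∈ sh m s) : -x ∈ sh m s := by
  simp only [sh, mem_union, mem_image] at h ⊢
  rcases h with ⟨t, ht, rfl⟩ | ⟨t, ht, rfl⟩
  · exact Or.inr ⟨t, ht, rfl⟩
  · exact Or.inl ⟨t, ht, by simp⟩

lemma cast_ne {m t : ℕ} (h1 : 0 < t) (h2 : t < m) : (t : ZMod m) ≠ 0 := by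
  rw [Ne, ZMod.natCast_eq_zero_iff]
  exact Nat.not_dvd_of_pos_of_lt h1 h2

lemma sh_zero {m s : ℕ} (h : 2 * s < m) : (0 : ZMod m) ∉ sh m s := by
  simp only [sh, mem_union, mem_image, mem_Icc]
  rintro (⟨t, ht, e⟩ | ⟨t, ht, e⟩)
  · exact cast_ne (by omega) (by omega) e
  · exact cast_ne (m := m) (t := t) (by omega) (by omega) (neg_eq_zero.1 e)

lemma sh_card {m s : ℕ} (h : 2 * s < m) : #(sh m s) = 2 * s := by
  have inj : Set.InjOn (fun t : ℕ => (t : ZMod m)) (Icc 1 s : Finset ℕ) := by
    intro a ha b hb e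
    simp only [coe_Icc, Set.mem_Icc] at ha hb
    have := (ZMod.natCast_eq_natCast_iff' a b m).1 e
    rwa [Nat.mod_eq_of_lt (by omega), Nat.mod_eq_of_lt (by omega)] at this
  rw [sh, card_union_of_disjoint, card_image_of_injOn inj,
    card_image_of_injOn fun a ha b hb e => inj ha hb (neg_injective e)]
  · simp; omega
  · rw [disjoint_left]
    intro x hx hy
    obtain ⟨a, ha, rfl⟩ := mem_image.1 hx
    obtain ⟨b, hb, e⟩ := mem_image.1 hy
    simp only [mem_Icc] at ha hb
    refine cast_ne (m := m) (t := a + b) (by omega) (by omega) ?_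
    push_cast
    rw [← e]; ring

def gr (k m a b : ℕ) (hb : 2 * b < m) (ha : 2 * a < m) : SimpleGraph (Fin k × ZMod m) where
  Adj x y := y.2 - x.2 ∈ sh m (if x.1 = y.1 then b else a)
  symm := ⟨fun x y h => by
    have := sh_neg h
    rw [neg_sub] at this
    simpa only [eq_comm] using this⟩
  loopless := ⟨fun x h => by
    simp only [sub_self, if_true] at h
    exact sh_zero hb h⟩

lemma gr_cnt (k m a b : ℕ) (hb : 2 * b < m) (ha : 2 * a < m) (v : Fin k × ZMod m) (i : Fin k) :
    {w | (gr k m a b hb ha).Adj v w ∧ w.1 = i}.ncard = 2 * if v.1 = i then b else a := by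
  have : {w | (gr k m a b hb ha).Adj v w ∧ w.1 = i} =
      ↑((sh m (if v.1 = i then b else a)).image fun t => (i, t + v.2)) := by
    ext ⟨j, y⟩
    simp only [gr, Set.mem_ofPred_eq, coe_image, Set.mem_image, mem_coe, Prod.mk.injEq]
    constructor
    · rintro ⟨h, rfl⟩
      exact ⟨_, h, rfl, by simp⟩
    · rintro ⟨t, ht, rfl, rfl⟩
      simpa using ht
  rw [this, Set.ncard_coe_finset, card_image_of_injective _ fun s t e => by simpa using e, sh_card]
  split_ifs <;> assumption

lemma gr_deg (k m a b : ℕ) [NeZero m] (hb : 2 * b < m) (ha : 2 * a < m) (v : Fin k × ZMod m) :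
    ((gr k m a b hb ha).neighborSet v).ncard = 2 * (b + (k - 1) * a) := by
  classical
  rw [Set.ncard_eq_toFinset_card', card_eq_sum_card_fiberwise (f := Prod.fst) (t := univ) (by simp)]
  have : ∀ i, #(((gr k m a b hb ha).neighborSet v).toFinset.filter fun w => w.1 = i) =
      2 * if v.1 = i then b else a := by
    intro i
    rw [← gr_cnt k m a b hb ha, ← Set.ncard_coe_finset]
    congr 1
    ext w; simp
  simp only [this]
  rw [← mul_sum, ← add_sum_erase _ _ (mem_univ v.1), if_pos rfl,
    sum_congr rfl fun i hi => if_neg (ne_of_mem_erase hi).symm]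
  simp

lemma gr_conn (k m a b : ℕ) [NeZero m] (hb : 2 * b < m) (ha : 2 * a < m) (hk : 2 ≤ k)
    (ha1 : 1 ≤ a) (hm : Odd m) : (gr k m a b hb ha).Connected := by
  have one : (1 : ZMod m) ∈ sh m a := by
    simp only [sh, mem_union, mem_image, mem_Icc]
    exact Or.inl ⟨1, ⟨le_rfl, ha1⟩, by simp⟩
  have st : ∀ (i j : Fin k) (x : ZMod m), i ≠ j → (gr k m a b hb ha).Adj (i, x) (j, x + 1) := by
    intro i j x h
    simpa [gr, h] using one
  haveI : Nontrivial (Fin k) := Fin.nontrivial_iff_two_le.2 hk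
  have two : ∀ (i : Fin k) (x : ZMod m) (t : ℕ),
      (gr k m a b hb ha).Reachable (i, x) (i, x + 2 * t) := by
    intro i x t
    induction t with
    | zero => simp
    | succ t ih =>
      obtain ⟨j, hj⟩ := exists_ne i
      have := (ih.trans (st i j _ hj.symm).reachable).trans (st j i _ hj).reachable
      convert this using 2
      push_cast; ring
  have same : ∀ (i : Fin k) (x y : ZMod m), (gr k m a b hb ha).Reachable (i, x) (i, y) := by
    intro i x y
    obtain ⟨r, hr⟩ := hm
    have h2 : (2 : ZMod m) * (r + 1) = 1 := by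
      have : ((2 * r + 1 : ℕ) : ZMod m) = 0 := by rw [← hr]; simp
      push_cast at this
      linear_combination this
    have := two i x (((r + 1) * (y - x) : ZMod m)).val
    rw [ZMod.natCast_zmod_val, ← mul_assoc, h2] at this
    simpa using this
  refine @SimpleGraph.Connected.mk _ _ ?_ ⟨(⟨0, by omega⟩, 0)⟩
  rintro ⟨i, x⟩ ⟨j, y⟩
  by_cases h : i = j
  · subst h; exact same i x y
  · exact (st i j x h).reachable.trans (same j _ y)

theorem result (k : ℕ) (hk : 2 ≤ k) (α : ℚ) (h0 : 0 < α) (h1 : α ≤ 1 / ((k : ℚ) - 1)) :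
    ∃ (V : Type) (_ : Fintype V) (G : SimpleGraph V), G.Connected ∧
      (∃ c : V → Fin k, IsFAT G k c (α : ℝ)) ∧
      IsGreatest {l : ℕ | ∃ (c : V → Fin l) (β : ℝ), IsFAT G l c β} k := by
  obtain ⟨a, ha⟩ : ∃ a : ℕ, (a : ℤ) = α.num := ⟨α.num.toNat, Int.toNat_of_nonneg (by positivity)⟩
  have hq : (0 : ℚ) < α.den := by exact_mod_cast α.den_pos
  have haq : (a : ℚ) = α * α.den := by
    rw [Rat.mul_den_eq_num, ← ha]; simp
  have hk' : (1 : ℚ) ≤ (k : ℚ) - 1 := by
    have : (2 : ℚ) ≤ k := by exact_mod_cast hk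
    linarith
  have h1' : α * ((k : ℚ) - 1) ≤ 1 := by rwa [le_div_iff₀ (by linarith)] at h1
  have hc : ((k - 1 : ℕ) : ℚ) = (k : ℚ) - 1 := by rw [Nat.cast_sub (by omega)]; simp
  have hle : (k - 1) * a ≤ α.den := by
    have : ((k - 1 : ℕ) : ℚ) * a ≤ α.den := by rw [hc, haq]; nlinarith
    exact_mod_cast this
  obtain ⟨b, hb⟩ := Nat.exists_eq_add_of_le hle
  have ha1 : 1 ≤ a := by
    have : (0 : ℚ) < a := by rw [haq]; positivity
    exact_mod_cast this
  obtain ⟨m, hm, hp⟩ := Nat.exists_infinite_primes (2 * α.den + 2)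
  haveI : NeZero m := ⟨hp.ne_zero⟩
  have hka : a ≤ (k - 1) * a := Nat.le_mul_of_pos_left _ (by omega)
  have hbm : 2 * b < m := by omega
  have ham : 2 * a < m := by omega
  have hconn := gr_conn k m a b hbm ham hk ha1 (hp.odd_of_ne_two (by omega))
  have hdeg : ∀ v, ((gr k m a b hbm ham).neighborSet v).ncard = 2 * α.den := fun v => by
    rw [gr_deg, hb, add_comm]
  have hfat : IsFAT (gr k m a b hbm ham) k Prod.fst (α : ℝ) := by
    refine ⟨fun i => ⟨(i, 0), rfl⟩, by exact_mod_cast h0.le, ?_, fun v i => ?_⟩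
    · have : α ≤ 1 := by nlinarith
      exact_mod_cast this
    · rw [gr_cnt, hdeg]
      have e1 : (a : ℝ) = α * α.den := by exact_mod_cast haq
      have e2 : (α.den : ℝ) = ((k : ℝ) - 1) * a + b := by
        have : (α.den : ℚ) = ((k : ℚ) - 1) * a + b := by rw [← hc]; exact_mod_cast hb
        exact_mod_cast this
      split_ifs
      · push_cast
        linear_combination (-2) * e2 - 2 * ((k : ℝ) - 1) * e1
      · push_cast
        linear_combination 2 * e1
  refine ⟨Fin k × ZMod m, inferInstance, gr k m a b hbm ham, hconn, ⟨_, hfat⟩,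
    ⟨_, _, hfat⟩, ?_⟩
  rintro l ⟨c, β, hc⟩
  by_contra hl
  obtain ⟨u1, u2⟩ := upper _ hconn _ hdeg l (by omega) c β hc
  rw [Fintype.card_prod, Fintype.card_fin, ZMod.card] at u2
  have hcop : Nat.Coprime l m :=
    (Nat.coprime_of_lt_prime (by omega) (by omega) hp).symm
  have := Nat.le_of_dvd (by omega) (hcop.dvd_of_dvd_mul_right u2)
  omega

end Pool.Agent.Results.MP_2d49c6_co.All
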